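import Pool.Agent.Olsh.Stage0
import Pool.Agent.Olsh.StepC
import Pool.Agent.Olsh.ClosedG

set_option autoImplicit false

/-!
# A one-law variety of groups whose free group of rank two contains a free subsemigroup and has
finitely generated commutator subgroup
-/

namespace Pool.Agent.Results.MP_3cdb71_al.OneLaw

/-- `G` satisfies the law `w = 1`: all values of the word `w` (in two letters) in `G` are trivial. -/
def Law (w : FreeGroup Bool) (G : Type) [Group G] : Prop :=
  ∀ f : Bool → G, FreeGroup.lift f w = 1

/-- The verbal subgroup `w(F)` of the free group `F` on two letters: the subgroup generated by all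
values of `w` in `F`. -/
def verbal (w : FreeGroup Bool) : Subgroup (FreeGroup Bool) :=
  Subgroup.closure (Set.range fun f : Bool → FreeGroup Bool => FreeGroup.lift f w)

/-- The verbal subgroup is normal. -/
instance verbal_normal (w : FreeGroup Bool) : (verbal w).Normal := by
  refine ⟨fun n hn g => ?_⟩
  unfold verbal at hn ⊢
  induction hn using Subgroup.closure_induction with
  | mem x hx =>
    obtain ⟨f, rfl⟩ := hx
    apply Subgroup.subset_closure
    refine ⟨fun i => g * f i * g⁻¹, ?_⟩
    have h : FreeGroup.lift (fun i => g * f i * g⁻¹) =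
        (MulAut.conj g).toMonoidHom.comp (FreeGroup.lift f) := by
      apply FreeGroup.ext_hom
      intro i
      simp
    change FreeGroup.lift (fun i => g * f i * g⁻¹) w = g * FreeGroup.lift f w * g⁻¹
    rw [h]
    simp
  | one => simp
  | mul a b _ _ ha hb =>
    have : g * (a * b) * g⁻¹ = (g * a * g⁻¹) * (g * b * g⁻¹) := by group
    rw [this]
    exact mul_mem ha hb
  | inv a _ ha =>
    have : g * a⁻¹ * g⁻¹ = (g * a * g⁻¹)⁻¹ := by group
    rw [this]
    exact inv_mem ha

/-- The free group of rank two of the variety of groups defined by the law `w = 1`. -/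
abbrev RelFree (w : FreeGroup Bool) : Type := FreeGroup Bool ⧸ verbal w

/-- Its two free generators. -/
def gen (w : FreeGroup Bool) (i : Bool) : RelFree w := QuotientGroup.mk (FreeGroup.of i)

open Pool.Agent.Olsh

theorem verbal_wl (D : LD) :
    verbal (wl D (FreeGroup.of true) (FreeGroup.of false)) = VS D := by
  have hset : (Set.range fun f : Bool → FreeGroup Bool =>
      FreeGroup.lift f (wl D (FreeGroup.of true) (FreeGroup.of false))) =
      {g | ∃ x y : FreeGroup Bool, g = wl D x y} := by
    ext g
    constructor
    · rintro ⟨f, rfl⟩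
      refine ⟨f true, f false, ?_⟩
      dsimp only
      rw [map_wl]
      simp
    · rintro ⟨x, y, rfl⟩
      refine ⟨fun i => if i then x else y, ?_⟩
      dsimp only
      rw [map_wl]
      simp
  have hn := verbal_normal (wl D (FreeGroup.of true) (FreeGroup.of false))
  apply le_antisymm
  · unfold verbal VS
    rw [hset]
    exact Subgroup.closure_le_normalClosure
  · unfold VS
    apply Subgroup.normalClosure_le_normal
    rw [← hset]
    exact Subgroup.subset_closure

theorem law_iff (D : LD) (G : Type) [Group G] :
    Law (wl D (FreeGroup.of true) (FreeGroup.of false)) G ↔ ∀ x y : G, wl D x y = 1 := by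
  constructor
  · intro h x y
    have := h fun i => if i then x else y
    rw [map_wl] at this
    simpa using this
  · intro h f
    rw [map_wl]
    exact h _ _

/-- **A one-law variety.** There is a word `w` in two letters, which is a law of all abelian
groups, such that for the variety of groups defined by the law `w = 1` and its free group
`RelFree w` of rank two (on `gen w true`, `gen w false`): it satisfies the law and has the
universal property; two positive words in the two free generators are equal only if they are
identical; its commutator subgroup is finitely generated; and every group generated by two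
elements and satisfying the law `w = 1` has finitely generated commutator subgroup. -/
theorem result : ∃ w : FreeGroup Bool,
    (∀ (A : Type) [CommGroup A], Law w A) ∧
    Law w (RelFree w) ∧
    (∀ (H : Type) [Group H], Law w H → ∀ f : Bool → H,
      ∃! φ : RelFree w →* H, ∀ i, φ (gen w i) = f i) ∧
    (∀ u v : List Bool, (u.map (gen w)).prod = (v.map (gen w)).prod → u = v) ∧
    (commutator (RelFree w)).FG ∧
    (∀ (H : Type) [Group H], Law w H → ∀ a b : H, Subgroup.closure {a, b} = ⊤ →
      (commutator H).FG) := by
  obtain ⟨D, c, u, m, hH, hk, hu, hT, hL, hcl, hst⟩ := STEP ClosedG.cMALN ClosedG.cKOV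
      ClosedG.cKROT ClosedG.cKLC ClosedG.cVAR ClosedG.cSHR ClosedG.cEW1 ClosedG.cDIR
      ClosedG.cCONEQ ClosedG.cTRANSFER ClosedG.cCLASS ClosedG.cCLLL ClosedG.cBEAX
      ClosedG.cANGS ClosedG.cSPL ClosedG.cSPS ClosedG.cSPD ClosedG.cSPF ClosedG.cESEQ
      ClosedG.cCONEGM ClosedG.cKFREE ClosedG.cPSA ClosedG.cANGX
  have hpos : PosInj (QuotientGroup.mk' (VS D)) := by
    refine posInj_of_step D hH hu hT (Stage D c) ⟨lvl0, stage0 D c hL hcl⟩ hst ?_
    rintro L ⟨SP, Lam, sg, phi, h⟩
    exact h.phl.inj
  set w := wl D (FreeGroup.of true) (FreeGroup.of false) with hw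
  have hV : verbal w = VS D := verbal_wl D
  have hlawR : Law w (RelFree w) := by
    intro f
    obtain ⟨f', hf'⟩ : ∃ f' : Bool → FreeGroup Bool, ∀ i, (QuotientGroup.mk' (verbal w)) (f' i) = f i :=
      ⟨fun i => (QuotientGroup.mk'_surjective (verbal w) (f i)).choose,
        fun i => (QuotientGroup.mk'_surjective (verbal w) (f i)).choose_spec⟩
    have h1 : FreeGroup.lift f = (QuotientGroup.mk' (verbal w)).comp (FreeGroup.lift f') := by
      apply FreeGroup.ext_hom
      intro i
      rw [MonoidHom.comp_apply, FreeGroup.lift_apply_of, FreeGroup.lift_apply_of, hf']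
    rw [h1, MonoidHom.comp_apply]
    exact (QuotientGroup.eq_one_iff _).2 (Subgroup.subset_closure ⟨f', rfl⟩)
  have hgen : Subgroup.closure {gen w true, gen w false} = ⊤ := by
    have h1 : ({gen w true, gen w false} : Set (RelFree w)) =
        (QuotientGroup.mk' (verbal w)) '' (Set.range FreeGroup.of) := by
      ext g
      constructor
      · rintro (rfl | rfl)
        · exact ⟨_, ⟨true, rfl⟩, rfl⟩
        · exact ⟨_, ⟨false, rfl⟩, rfl⟩
      · rintro ⟨_, ⟨i, rfl⟩, rfl⟩
        cases i
        · right; rfl
        · left; rfl
    rw [h1, ← MonoidHom.map_closure, FreeGroup.closure_range_of, ← MonoidHom.range_eq_map,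
      MonoidHom.range_eq_top]
    exact QuotientGroup.mk'_surjective _
  have h2gen : ∀ (H : Type) [Group H], Law w H → ∀ a b : H, Subgroup.closure {a, b} = ⊤ →
      (commutator H).FG := fun H _ hl a b hab =>
    commutator_fg_of_law (by omega) hk ((law_iff D H).1 hl) a b hab
  refine ⟨w, fun A _ => (law_iff D A).2 fun x y => wl_comm hH (Commute.all x y), hlawR,
    fun H _ hl f => ?_, fun P Q hPQ => ?_, h2gen _ hlawR _ _ hgen, h2gen⟩
  · have hker : verbal w ≤ (FreeGroup.lift f).ker := by
      unfold verbal
      rw [Subgroup.closure_le]
      rintro _ ⟨f', rfl⟩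
      change FreeGroup.lift f (FreeGroup.lift f' w) = 1
      have h1 : (FreeGroup.lift f).comp (FreeGroup.lift f') =
          FreeGroup.lift fun i => FreeGroup.lift f (f' i) := by
        apply FreeGroup.ext_hom
        intro i
        simp
      have h2 := DFunLike.congr_fun h1 w
      rw [MonoidHom.comp_apply] at h2
      rw [h2]
      exact hl _
    refine ⟨QuotientGroup.lift (verbal w) (FreeGroup.lift f) hker, fun i => ?_, fun ψ hψ => ?_⟩
    · change QuotientGroup.lift (verbal w) (FreeGroup.lift f) hker
        ((FreeGroup.of i : FreeGroup Bool) : RelFree w) = _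
      rw [QuotientGroup.lift_mk]
      exact FreeGroup.lift_apply_of
    · apply QuotientGroup.monoidHom_ext
      apply FreeGroup.ext_hom
      intro i
      change ψ (gen w i) = QuotientGroup.lift (verbal w) (FreeGroup.lift f) hker
        ((FreeGroup.of i : FreeGroup Bool) : RelFree w)
      rw [QuotientGroup.lift_mk, hψ i]
      exact FreeGroup.lift_apply_of.symm
  · have e : ∀ l : List Bool, (l.map (gen w)).prod =
        QuotientGroup.mk' (verbal w) (l.map FreeGroup.of).prod := by
      intro l
      rw [map_list_prod, List.map_map]
      rfl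
    rw [e, e] at hPQ
    apply hpos
    change ((P.map FreeGroup.of).prod : FreeGroup Bool ⧸ VS D) = ((Q.map FreeGroup.of).prod :
      FreeGroup Bool ⧸ VS D)
    rw [QuotientGroup.eq, ← hV]
    exact QuotientGroup.eq.1 hPQ

end Pool.Agent.Results.MP_3cdb71_al.OneLaw
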